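import Pool.Agent.Y267.RS.Stm

/-!
# Displacements: existence, bounds, convergence along a subsequence (project RS of helper267, G1)
-/

set_option autoImplicit false

namespace Pool.Agent.Y317.RS

open Set Filter Topology Pool.Agent.Y267.RS
open scoped unitInterval

noncomputable section

/-- lifts of paths in the circle -/
lemma lift_unit (ψ : ℝ → T1) (hψ : ContinuousOn ψ (Icc 0 1)) (y0 : ℝ) (h0 : (y0 : T1) = ψ 0) :
    ∃ h : ℝ → ℝ, Continuous h ∧ (∀ s ∈ Icc (0 : ℝ) 1, ((h s : ℝ) : T1) = ψ s) ∧ h 0 = y0 := by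
  have hc : Continuous (fun s : I => ψ s) := continuousOn_iff_continuous_domRestrict.1 hψ
  obtain ⟨Γ, hΓ, hΓ0⟩ := (AddCircle.isCoveringMap_coe (1 : ℝ)).exists_path_lifts ⟨_, hc⟩ y0
    (by simpa using h0.symm)
  refine ⟨fun s => Γ (projIcc 0 1 zero_le_one s), Γ.continuous.comp continuous_projIcc, ?_, ?_⟩
  · intro s hs
    have := congrFun hΓ ⟨s, hs⟩
    beta_reduce
    rw [projIcc_of_mem _ hs]
    exact this
  · beta_reduce
    rw [projIcc_left]
    exact hΓ0

variable {S : Type} [TopologicalSpace S] {F : ℝ → S → S}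

/-- continuity of the path of a point -/
lemma path_cont (hF : ContinuousOn (fun p : ℝ × S => F p.1 p.2) (Icc 0 1 ×ˢ univ)) (φ : C(S, T1))
    (x : S) : ContinuousOn (fun s => φ (F s x)) (Icc 0 1) := by
  have h1 : ContinuousOn (fun s : ℝ => F s x) (Icc 0 1) := by
    have : ContinuousOn (fun s : ℝ => ((s, x) : ℝ × S)) (Icc 0 1) := by fun_prop
    exact hF.comp this fun s hs => ⟨hs, mem_univ _⟩
  exact φ.continuous.comp_continuousOn h1

/-- existence of displacements -/
theorem exists_disp (hF : ContinuousOn (fun p : ℝ × S => F p.1 p.2) (Icc 0 1 ×ˢ univ))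
    (h0 : ∀ x, F 0 x = x) (φ : C(S, T1)) (x : S) (n : ℕ) : ∃ δ, IsDisp F φ x n δ := by
  have key : ∀ n : ℕ, ∃ g : ℝ → ℝ, ContinuousOn g (Icc 0 (n : ℝ)) ∧
      (∀ j : ℕ, j < n → ∀ s ∈ Icc (0 : ℝ) 1, ((g (j + s) : ℝ) : T1) = φ (F s ((F 1)^[j] x))) ∧
      ((g n : ℝ) : T1) = φ ((F 1)^[n] x) := by
    intro n
    induction n with
    | zero =>
      obtain ⟨y, hy⟩ := QuotientAddGroup.mk_surjective (φ x)
      exact ⟨fun _ => y, continuousOn_const, fun j hj => absurd hj (Nat.not_lt_zero _), hy⟩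
    | succ n ih =>
      obtain ⟨g, hg, hg1, hg2⟩ := ih
      obtain ⟨h, hh, hh1, hh0⟩ := lift_unit (fun s => φ (F s ((F 1)^[n] x)))
        (path_cont hF φ _) (g n) (by rw [hg2, h0])
      have hn0 : (0 : ℝ) ≤ n := Nat.cast_nonneg n
      have e1 : EqOn (fun t => if t ≤ (n : ℝ) then g t else h (t - n)) g (Icc 0 (n : ℝ)) := by
        intro t ht
        simp only
        rw [if_pos ht.2]
      have e2 : EqOn (fun t => if t ≤ (n : ℝ) then g t else h (t - n)) (fun t => h (t - n))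
          (Icc (n : ℝ) (n + 1)) := by
        intro t ht
        simp only
        split_ifs with h1
        · have : t = n := le_antisymm h1 ht.1
          rw [this, sub_self, hh0]
        · rfl
      refine ⟨fun t => if t ≤ (n : ℝ) then g t else h (t - n), ?_, ?_, ?_⟩
      · have : Icc (0 : ℝ) ((n + 1 : ℕ) : ℝ) = Icc 0 (n : ℝ) ∪ Icc (n : ℝ) (n + 1) := by
          rw [Icc_union_Icc_eq_Icc hn0 (by linarith)]
          push_cast
          rfl
        rw [this]
        apply ContinuousOn.union_of_isClosed _ _ isClosed_Icc isClosed_Icc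
        · exact hg.congr e1
        · refine ContinuousOn.congr ?_ e2
          fun_prop
      · intro j hj s hs
        rcases Nat.lt_succ_iff_lt_or_eq.1 hj with h1 | h1
        · have h2 : (j : ℝ) + 1 ≤ n := by exact_mod_cast h1
          simp only
          rw [if_pos (by linarith [hs.2])]
          exact hg1 j h1 s hs
        · subst h1
          simp only
          split_ifs with h2
          · have : s = 0 := by linarith [hs.1]
            rw [this, add_zero, hg2, h0]
          · rw [add_sub_cancel_left]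
            exact hh1 s hs
      · simp only
        push_cast
        rw [if_neg (by linarith), add_sub_cancel_left, hh1 1 ⟨zero_le_one, le_rfl⟩,
          Function.iterate_succ_apply']
  obtain ⟨g, hg, hg1, _⟩ := key n
  exact ⟨_, g, hg, hg1, rfl⟩

/-- a continuous function which stays near the integers modulo 1 is almost constant -/
lemma stay {d : ℝ → ℝ} {a b : ℝ} (hab : a ≤ b) (hd : ContinuousOn d (Icc a b))
    (h : ∀ s ∈ Icc a b, ‖((d s : ℝ) : T1)‖ < 1 / 2) : |d b - d a| < 1 := by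
  have hn : ∀ y : ℝ, ‖((y : ℝ) : T1)‖ = |y - round y| := fun y => UnitAddCircle.norm_eq
  set k : ℤ := round (d a) with hk
  have h1 : |d a - k| < 1 / 2 := by
    rw [hk, ← hn]
    exact h a ⟨le_rfl, hab⟩
  have h2 : |d b - k| < 1 / 2 := by
    by_contra hcon
    push Not at hcon
    have hc : ContinuousOn (fun t => |d t - k|) (Icc a b) := (hd.sub continuousOn_const).abs
    obtain ⟨t, ht, ht2⟩ := intermediate_value_Icc hab hc ⟨h1.le, hcon⟩
    have h3 := h t ht
    rw [hn] at h3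
    simp only at ht2
    set m : ℤ := round (d t) with hm
    rcases abs_choice (d t - k) with h4 | h4
    · rw [h4] at ht2
      have h5 : d t - m = (k - m : ℤ) + 1 / 2 := by push_cast; linarith
      rw [h5, abs_lt] at h3
      have h6 : (-1 : ℝ) < ((k - m : ℤ) : ℝ) := by linarith [h3.1]
      have h7 : ((k - m : ℤ) : ℝ) < 0 := by linarith [h3.2]
      have h8 : (-1 : ℤ) < k - m := by exact_mod_cast h6
      have h9 : k - m < 0 := by exact_mod_cast h7
      omega
    · rw [h4] at ht2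
      have h5 : d t - m = (k - m : ℤ) - 1 / 2 := by push_cast; linarith
      rw [h5, abs_lt] at h3
      have h6 : (0 : ℝ) < ((k - m : ℤ) : ℝ) := by linarith [h3.1]
      have h7 : ((k - m : ℤ) : ℝ) < 1 := by linarith [h3.2]
      have h8 : (0 : ℤ) < k - m := by exact_mod_cast h6
      have h9 : k - m < 1 := by exact_mod_cast h7
      omega
  rw [abs_lt] at h1 h2 ⊢
  constructor <;> linarith [h1.1, h1.2, h2.1, h2.2]

/-- decomposition of a point of `[0, n]` -/
lemma split_pt {n : ℕ} (hn : 0 < n) {s : ℝ} (hs : s ∈ Icc (0 : ℝ) n) :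
    ∃ j : ℕ, j < n ∧ ∃ t ∈ Icc (0 : ℝ) 1, s = j + t := by
  rcases lt_or_ge s n with h | h
  · refine ⟨⌊s⌋₊, ?_, s - ⌊s⌋₊, ⟨?_, ?_⟩, by ring⟩
    · exact (Nat.floor_lt hs.1).2 h
    · linarith [Nat.floor_le hs.1]
    · linarith [Nat.lt_floor_add_one s]
  · refine ⟨n - 1, by omega, 1, ⟨zero_le_one, le_rfl⟩, ?_⟩
    have : s = n := le_antisymm hs.2 h
    rw [this, Nat.cast_sub hn]
    push_cast
    ring

/-- displacements of close maps are close -/
lemma disp_close {φ ψ : C(S, T1)} (h : ∀ y, ‖φ y - ψ y‖ < 1 / 2) {x : S} {n : ℕ} {δ δ' : ℝ}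
    (h1 : IsDisp F φ x n δ) (h2 : IsDisp F ψ x n δ') : |δ - δ'| ≤ 1 := by
  obtain ⟨g, hg, hg1, rfl⟩ := h1
  obtain ⟨g', hg', hg1', rfl⟩ := h2
  rcases Nat.eq_zero_or_pos n with h0 | h0
  · subst h0
    simp
  · have h3 : ∀ s ∈ Icc (0 : ℝ) n, ‖((g s - g' s : ℝ) : T1)‖ < 1 / 2 := by
      intro s hs
      obtain ⟨j, hj, t, ht, rfl⟩ := split_pt h0 hs
      rw [AddCircle.coe_sub, hg1 j hj t ht, hg1' j hj t ht]
      exact h _
    have h4 := stay (d := fun s => g s - g' s) (Nat.cast_nonneg n) (hg.sub hg') h3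
    have e : g n - g 0 - (g' n - g' 0) = (g n - g' n) - (g 0 - g' 0) := by ring
    rw [e]
    exact h4.le

/-- displacements grow at most linearly -/
lemma disp_bound [CompactSpace S] [TopologicalSpace.MetrizableSpace S]
    (hF : ContinuousOn (fun p : ℝ × S => F p.1 p.2) (Icc 0 1 ×ˢ univ)) (φ : C(S, T1)) :
    ∃ C : ℝ, 0 ≤ C ∧ ∀ (x : S) (n : ℕ) (δ : ℝ), IsDisp F φ x n δ → |δ| ≤ C * n := by
  let _ := TopologicalSpace.metrizableSpaceMetric S
  have hK : IsCompact (Icc (0 : ℝ) 1 ×ˢ (univ : Set S)) := isCompact_Icc.prod isCompact_univ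
  have hc : ContinuousOn (fun p : ℝ × S => φ (F p.1 p.2)) (Icc 0 1 ×ˢ univ) :=
    φ.continuous.comp_continuousOn hF
  obtain ⟨ε, hε, hunif⟩ := Metric.uniformContinuousOn_iff.1
    (hK.uniformContinuousOn_of_continuous hc) (1 / 2) (by norm_num)
  obtain ⟨M, hM⟩ := exists_nat_gt (1 / ε)
  have hM0 : (0 : ℝ) < M := lt_trans (by positivity) hM
  have hMε : 1 / (M : ℝ) < ε := by
    rw [div_lt_iff₀ hM0]
    rw [div_lt_iff₀ hε] at hM
    linarith
  refine ⟨M, hM0.le, ?_⟩
  rintro x n δ ⟨g, hg, hg1, rfl⟩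
  -- one piece
  have piece : ∀ j : ℕ, j < n → ∀ k : ℕ, k < M →
      |g (j + (k + 1 : ℕ) / M) - g (j + (k : ℕ) / M)| ≤ 1 := by
    intro j hj k hk
    have hk0 : (0 : ℝ) ≤ k := Nat.cast_nonneg k
    have hj0 : (0 : ℝ) ≤ j := Nat.cast_nonneg j
    have hk1 : ((k : ℝ) + 1) / M ≤ 1 := by
      rw [div_le_one hM0]
      exact_mod_cast hk
    have hk2 : (0 : ℝ) ≤ (k : ℝ) / M := by positivity
    have hk3 : ((k + 1 : ℕ) : ℝ) / M = (k : ℝ) / M + 1 / M := by
      push_cast
      ring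
    have hk4 : (0 : ℝ) < 1 / M := by positivity
    have hk5 : (k : ℝ) / M + 1 / M ≤ 1 := by
      rw [← add_div]
      exact hk1
    have hjn : (j : ℝ) + 1 ≤ n := by exact_mod_cast hj
    have hsub : Icc ((j : ℝ) + (k : ℝ) / M) (j + ((k + 1 : ℕ) : ℝ) / M) ⊆ Icc 0 (n : ℝ) := by
      rw [hk3]
      intro s hs
      exact ⟨by linarith [hs.1], by linarith [hs.2]⟩
    have h4 := stay (d := fun s => g s - g (j + (k : ℕ) / M)) (a := j + (k : ℝ) / M)
      (b := j + ((k + 1 : ℕ) : ℝ) / M) (by rw [hk3]; linarith)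
      ((hg.mono hsub).sub continuousOn_const) (by
        intro s hs
        rw [hk3] at hs
        have a1 : s - j ∈ Icc (0 : ℝ) 1 := ⟨by linarith [hs.1], by linarith [hs.2]⟩
        have a2 : (k : ℝ) / M ∈ Icc (0 : ℝ) 1 := ⟨hk2, by linarith⟩
        have b1 := hg1 j hj (s - j) a1
        have b2 := hg1 j hj (k / M) a2
        rw [add_sub_cancel] at b1
        rw [AddCircle.coe_sub, b1, b2, ← dist_eq_norm]
        apply hunif (s - j, _) ⟨a1, mem_univ _⟩ (k / M, _) ⟨a2, mem_univ _⟩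
        rw [Prod.dist_eq, dist_self, max_eq_left dist_nonneg, Real.dist_eq, abs_lt]
        constructor <;> linarith [hs.1, hs.2])
    have e : g (j + ((k + 1 : ℕ) : ℝ) / M) - g (j + (k : ℕ) / M) =
        (g (j + ((k + 1 : ℕ) : ℝ) / M) - g (j + (k : ℕ) / M)) -
        (g (j + (k : ℕ) / M) - g (j + (k : ℕ) / M)) := by ring
    rw [e]
    exact h4.le
  have unit : ∀ j : ℕ, j < n → |g ((j + 1 : ℕ) : ℝ) - g (j : ℕ)| ≤ M := by
    intro j hj
    have h1 := Finset.sum_range_sub (fun k : ℕ => g (j + (k : ℕ) / M)) M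
    rw [div_self hM0.ne', Nat.cast_zero, zero_div, add_zero] at h1
    have h2 : ((j + 1 : ℕ) : ℝ) = j + 1 := by push_cast; ring
    rw [h2, ← h1]
    refine (Finset.abs_sum_le_sum_abs _ _).trans ?_
    calc _ ≤ ∑ _k ∈ Finset.range M, (1 : ℝ) :=
          Finset.sum_le_sum fun k hk => piece j hj k (Finset.mem_range.1 hk)
      _ = M := by simp
  have h1 := Finset.sum_range_sub (fun j : ℕ => g (j : ℕ)) n
  simp only [Nat.cast_zero] at h1
  rw [← h1]
  refine (Finset.abs_sum_le_sum_abs _ _).trans ?_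
  calc _ ≤ ∑ _j ∈ Finset.range n, (M : ℝ) :=
        Finset.sum_le_sum fun j hj => unit j (Finset.mem_range.1 hj)
    _ = M * n := by simp [mul_comm]

/-- G1 -/
theorem g1 : G1Stm := by
  intro S _ _ _ F hF h0 x n hn
  let _ := TopologicalSpace.metrizableSpaceMetric S
  have : Nonempty S := ⟨x 0⟩
  choose D hD using fun (φ : C(S, T1)) (k : ℕ) => exists_disp hF h0 φ (x k) (n k)
  choose C hC0 hC using fun φ : C(S, T1) => disp_bound hF φ
  have : Nonempty C(S, T1) := ⟨ContinuousMap.const S 0⟩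
  obtain ⟨e, he⟩ := TopologicalSpace.exists_dense_seq C(S, T1)
  -- the subsequence
  have hcomp : IsCompact (Set.pi univ fun i : ℕ => Icc (-C (e i)) (C (e i))) :=
    isCompact_univ_pi fun i => isCompact_Icc
  obtain ⟨w, _, ω, hω, hlim⟩ := hcomp.tendsto_subseq
    (x := fun k => fun i : ℕ => D (e i) k / n k) (by
      intro k i _
      have h1 := hC (e i) (x k) (n k) _ (hD (e i) k)
      rcases Nat.eq_zero_or_pos (n k) with h2 | h2
      · simp only [h2, Nat.cast_zero, div_zero]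
        exact ⟨by linarith [hC0 (e i)], hC0 (e i)⟩
      · have h3 : (0 : ℝ) < n k := by exact_mod_cast h2
        have h4 : |D (e i) k / n k| ≤ C (e i) := by
          rw [abs_div, abs_of_pos h3, div_le_iff₀ h3]
          exact h1
        exact abs_le.1 h4)
  have hlim' : ∀ i, Tendsto (fun k => D (e i) (ω k) / n (ω k)) atTop (𝓝 (w i)) := by
    intro i
    exact (tendsto_pi_nhds.1 hlim) i
  have hnω : Tendsto (fun k => (n (ω k) : ℝ)) atTop atTop :=
    tendsto_natCast_atTop_atTop.comp (hn.comp hω.tendsto_atTop)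
  have hnear : ∀ φ : C(S, T1), ∃ i, dist φ (e i) < 1 / 2 := fun φ =>
    he.exists_dist_lt φ (by norm_num)
  choose ι hι using hnear
  refine ⟨ω, hω, fun φ => w (ι φ), fun φ k => D φ (ω k), fun φ k => hD φ (ω k), ?_⟩
  intro φ
  have h1 : Tendsto (fun k => D φ (ω k) / n (ω k) - D (e (ι φ)) (ω k) / n (ω k)) atTop (𝓝 0) := by
    have h2 : Tendsto (fun k => 1 / (n (ω k) : ℝ)) atTop (𝓝 0) :=
      tendsto_const_nhds.div_atTop hnω
    refine squeeze_zero_norm (fun k => ?_) h2
    have h3 := disp_close (F := F) (φ := φ) (ψ := e (ι φ)) (fun y => by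
      rw [← dist_eq_norm]
      exact (ContinuousMap.dist_apply_le_dist y).trans_lt (hι φ)) (hD φ (ω k))
      (hD (e (ι φ)) (ω k))
    rw [← sub_div, norm_div, Real.norm_eq_abs, Real.norm_natCast]
    exact div_le_div_of_nonneg_right h3 (Nat.cast_nonneg _)
  have h2 := h1.add (hlim' (ι φ))
  rw [zero_add] at h2
  refine h2.congr fun k => ?_
  ring

end

end Pool.Agent.Y317.RS
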